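import Pool.Agent.TH845.KN.B2

/-!
# Norms of polynomials over totally real and CM fields, and products of classes

`L K` is the set of the Mahler measures of the nonzero integer polynomials `F` (in any number of
variables) having a coprime companion `G` with `∫ log max(|F|, |G|) ≤ K`; a set `T` of reals has
bounded companions if for every `B` some `L K` contains all elements of `T` below `B`.  (The known
classes with this property: nonreciprocal polynomials, Hermitian matrices of `k × k` blocks,
polynomials of bounded length or width, every `L K` itself.)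

Let `E` be a number field, totally real or CM, with complex conjugation `c`, and let `f` be a
polynomial in any number of variables, with coefficients in the ring of integers of `E`, coprime
over `E` to its conjugate reciprocal.  The measure `x` of the norm of `f` to `ℚ` lies in
`L (4 log x)`; the degree of `E` is not restricted.  (The norm of `f` may be a reciprocal
polynomial.)

The multiplicative monoid generated by all these measures and by any class `T` with bounded
companions has bounded companions.  Hence its closure consists of Mahler measures, it has a gap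
above `1`, and below every bound it has finite Cantor-Bendixson rank.
-/

set_option autoImplicit false

namespace Pool.Agent.Results.MP_6d22ea_nt.KroneckerianNorms

open MvPolynomial

noncomputable section

/-- The point `(exp (2 π i t_1), …, exp (2 π i t_k))` of the torus. -/
def torusPoint {k : ℕ} (t : Fin k → ℝ) : Fin k → ℂ := fun j =>
  Complex.exp (2 * (Real.pi : ℂ) * Complex.I * ((t j : ℝ) : ℂ))

/-- The Mahler measure of a complex polynomial in `k` variables. -/
def mahler {k : ℕ} (F : MvPolynomial (Fin k) ℂ) : ℝ :=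
  Real.exp (∫ t in Set.Icc (0 : Fin k → ℝ) 1, Real.log ‖eval (torusPoint t) F‖)

/-- The integral of `log max(|F|, |G|)` over the torus. -/
def pairHeight {k : ℕ} (F G : MvPolynomial (Fin k) ℂ) : ℝ :=
  ∫ t in Set.Icc (0 : Fin k → ℝ) 1,
    Real.log (max ‖eval (torusPoint t) F‖ ‖eval (torusPoint t) G‖)

/-- An integer polynomial as a complex polynomial. -/
def toComplex {k : ℕ} (F : MvPolynomial (Fin k) ℤ) : MvPolynomial (Fin k) ℂ :=
  map (Int.castRingHom ℂ) F

/-- The set of the Mahler measures of the nonzero integer polynomials in any number of variables. -/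
def allMeasures : Set ℝ :=
  {x : ℝ | ∃ k : ℕ, 1 ≤ k ∧ ∃ F : MvPolynomial (Fin k) ℤ, F ≠ 0 ∧ x = mahler (toComplex F)}

/-- The Mahler measures of the nonzero polynomials `F` having a coprime companion `G ≠ 0` with
`∫ log max(|F|, |G|) ≤ K`. -/
def L (K : ℝ) : Set ℝ :=
  {x : ℝ | ∃ k : ℕ, 1 ≤ k ∧ ∃ F G : MvPolynomial (Fin k) ℤ, F ≠ 0 ∧ G ≠ 0 ∧ IsRelPrime F G ∧
    pairHeight (toComplex F) (toComplex G) ≤ K ∧ x = mahler (toComplex F)}

/-- For every `B` some `L K` contains all elements of `T` below `B`. -/
def BoundedCompanions (T : Set ℝ) : Prop := ∀ B : ℝ, ∃ K : ℝ, T ∩ Set.Iio B ⊆ L K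

/-- The conjugate reciprocal `z_1^{d_1} ⋯ z_k^{d_k} f^c(1/z_1, …, 1/z_k)`, where `d_i` is the degree
of `f` in `z_i` and `f^c` is obtained by applying `c` to the coefficients. -/
def conjugateReciprocal {E : Type} [Field E] (c : E →+* E) {k : ℕ} (f : MvPolynomial (Fin k) E) :
    MvPolynomial (Fin k) E :=
  ∑ s ∈ f.support, monomial (Finsupp.equivFunOnFinite.symm fun i => f.degreeOf i - s i)
    (c (f.coeff s))

/-- The Mahler measure of the norm of `f` from `E` to `ℚ`: the product over all embeddings of `E`
of the Mahler measures of the conjugates of `f`. -/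
def normMeasure {E : Type} [Field E] [NumberField E] {k : ℕ} (f : MvPolynomial (Fin k) E) : ℝ :=
  ∏ σ : E →+* ℂ, mahler (map σ f)

/-- The measures of the norms of the polynomials `f ≠ 0` with coefficients in the ring of integers
of a number field `E` having an endomorphism `c` that becomes complex conjugation under every
embedding (that is, `E` is totally real or CM), coprime over `E` to their conjugate reciprocal. -/
def kroneckerianNorms : Set ℝ :=
  {x : ℝ | ∃ (E : Type) (_ : Field E) (_ : NumberField E) (c : E →+* E),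
    (∀ (σ : E →+* ℂ) (a : E), σ (c a) = starRingEnd ℂ (σ a)) ∧
    ∃ (k : ℕ) (f : MvPolynomial (Fin k) E), f ≠ 0 ∧ (∀ s, IsIntegral ℤ (f.coeff s)) ∧
      IsRelPrime f (conjugateReciprocal c f) ∧ x = normMeasure f}

theorem result :
    (∀ (E : Type) [Field E] [NumberField E] (k : ℕ) (f g : MvPolynomial (Fin k) E), f ≠ 0 →
      (∀ s, IsIntegral ℤ (f.coeff s)) → (∀ s, IsIntegral ℤ (g.coeff s)) → IsRelPrime f g →
      normMeasure f ∈ L ((∑ σ : E →+* ℂ, pairHeight (map σ f) (map σ g)) +
        Module.finrank ℚ E * Real.log 2)) ∧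
    (∀ x ∈ kroneckerianNorms, 1 ≤ x ∧ x ∈ L (4 * Real.log x)) ∧
    (∀ T : Set ℝ, BoundedCompanions T →
      BoundedCompanions (Submonoid.closure (T ∪ kroneckerianNorms) : Submonoid ℝ) ∧
      closure ((Submonoid.closure (T ∪ kroneckerianNorms) : Submonoid ℝ) : Set ℝ) ⊆
        allMeasures ∧
      (∃ δ : ℝ, 1 < δ ∧ ∀ x ∈ (Submonoid.closure (T ∪ kroneckerianNorms) : Submonoid ℝ),
        x = 1 ∨ δ ≤ x) ∧
      ∀ B : ℝ, ∃ m : ℕ, ∀ x ∈ derivedSet^[m]
        ((Submonoid.closure (T ∪ kroneckerianNorms) : Submonoid ℝ) : Set ℝ), B ≤ x) := by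
  have hk : ∀ x ∈ kroneckerianNorms, 1 ≤ x ∧ x ∈ L (4 * Real.log x) := by
    rintro x ⟨E, _, _, c, hc, k, f, hf, hint, hcop, rfl⟩
    exact Pool.Agent.TH845.KN.kron_mem c hc f hf hint hcop
  have hkB : Pool.Agent.TH845.KN.BC kroneckerianNorms := by
    intro B
    refine ⟨4 * Real.log B, ?_⟩
    rintro x ⟨hx, hB⟩
    obtain ⟨h1, h2⟩ := hk x hx
    refine Pool.Agent.H261R2.CM.LL_mono ?_ h2
    have h3 : Real.log x ≤ Real.log B := Real.log_le_log (by linarith) (le_of_lt hB)
    linarith
  refine ⟨?_, hk, ?_⟩
  · intro E _ _ k f g hf hint hintg hcop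
    exact Pool.Agent.TH845.KN.pair_mem f g hf hint hintg hcop
  · intro T hT
    have h1 : Pool.Agent.TH845.KN.BC
        ((Submonoid.closure (T ∪ kroneckerianNorms) : Submonoid ℝ) : Set ℝ) :=
      Pool.Agent.TH845.KN.BC_monoid (Pool.Agent.TH845.KN.BC.union hT hkB)
    obtain ⟨h2, h3⟩ := Pool.Agent.W242.IM.closure_of_LL _ h1
    exact ⟨h1, h2, Pool.Agent.TH845.KN.gap_BC h1, h3⟩

end

end Pool.Agent.Results.MP_6d22ea_nt.KroneckerianNorms
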